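import Pool.Agent.H5.Leep.GChain
import Pool.Agent.H5.Leep.GLower
import Pool.Agent.H5.Leep.Base
import Pool.Agent.H5.Leep.UCalc
import Pool.Agent.H5.Leep.AllGroup

/-!
Leep's estimate (A) is sharp for every odd prime power different from `7`.
-/

namespace Pool.Agent.Results.MP_c32625_al.LeepASharpPrimePower

open LeepA

/-- For every odd prime power `r ≠ 7` there is a field `K` of characteristic `0` in which `-1` is a
sum of squares, with `u_1(K) = 1`, `u_{r-1}(K) = r` and `u_r(K) = r u_1(K) + u_{r-1}(K)`. -/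
theorem result : ∀ r : ℕ, IsPrimePow r → Odd r → r ≠ 7 →
    ∃ (K : Type) (_ : Field K), CharZero K ∧ IsSumSq (-1 : K) ∧ uInv K 1 = 1 ∧
      uInv K (r - 1) = r ∧ uInv K r = r * uInv K 1 + uInv K (r - 1) := by
  intro r hr hodd h7
  obtain ⟨ℓ, b, hℓ', hb, rfl⟩ := hr
  have hℓ : ℓ.Prime := Nat.prime_iff.mpr hℓ'
  have hℓ2 : ℓ ≠ 2 := by
    rintro rfl
    rw [Nat.odd_pow_iff hb.ne'] at hodd
    exact absurd hodd (by decide)
  obtain ⟨G, iG, hfin, hG⟩ := exists_GG_pow hℓ hℓ2 hb.ne' h7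
  obtain ⟨K0, Ω, i1, i2, i3, M0, hchar, hac, hcount, hfd, hgal, ⟨e⟩, t, ht⟩ := exists_base G
  have hG' : GG ℓ (ℓ ^ b) (M0 ≃ₐ[K0] M0) := LeepG.of_mulEquiv e.symm hG
  have hr3 : 3 ≤ ℓ ^ b := by
    have h1 := hℓ.two_le
    have h2 : ℓ ^ 1 ≤ ℓ ^ b := Nat.pow_le_pow_right (by omega) hb
    rw [pow_one] at h2
    omega
  obtain ⟨K, hK, hzero⟩ := LeepG.exists_K hℓ hℓ2 hr3 M0 hG' t ht
  have hlow : HasAnisoSystem K (ℓ ^ b) (2 * ℓ ^ b) := LeepG.lower hr3 M0 hG' K hK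
  have hcK : CharZero K := charZero_of_injective_algebraMap (algebraMap K0 K).injective
  have h2 : IsUnit (2 : K) := IsUnit.mk0 _ two_ne_zero
  have hup : ¬ HasAnisoSystem K (ℓ ^ b - 1) (ℓ ^ b + 1) := by
    rintro ⟨q, hq⟩
    choose P hP1 hP2 using fun k => exists_quadPoly h2 (q k)
    obtain ⟨a, ha0, ha⟩ := hzero P hP1
    exact ha0 (hq a fun i => by rw [← hP2, ha i])
  exact ⟨K, inferInstance, hcK, uInv_calc hr3 hup hlow⟩

end Pool.Agent.Results.MP_c32625_al.LeepASharpPrimePower
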