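import Pool.Agent.H6.LeepC.Final

/-!
Leep's estimate (C) is not sharp in any degree `d ≥ 4`.
-/

namespace Pool.Agent.Results.MP_c32625_al.LeepCNeverSharp

open LeepA

/-- If `u_1(K)` is finite and `L/K` has degree `d`, then `2 d u_1(L) + 2 d ≤ d (d+1) u_1(K) + 6`;
and `2 u_1(L) < (d+1) u_1(K)` as soon as `d ≥ 4`. -/
theorem result (K L : Type*) [Field K] [Field L] [Algebra K L] [FiniteDimensional K L]
    (hK : uInv K 1 ≠ ⊤) :
    2 * (Module.finrank K L : ℕ∞) * uInv L 1 + 2 * (Module.finrank K L : ℕ∞) ≤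
        (Module.finrank K L : ℕ∞) * ((Module.finrank K L : ℕ∞) + 1) * uInv K 1 + 6 ∧
      (4 ≤ Module.finrank K L →
        2 * uInv L 1 < ((Module.finrank K L : ℕ∞) + 1) * uInv K 1) :=
  LeepC.final hK

end Pool.Agent.Results.MP_c32625_al.LeepCNeverSharp
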