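import Pool.Agent.H5.Leep.QC3

/-!
Leep's estimate (C) is not sharp for `d ≥ 4` over fields with `u_1(K) = 1`.
-/

namespace Pool.Agent.Results.MP_c32625_al.LeepCNotSharpQuadClosed

open LeepA

/-- If `u_1(K) = 1` and `L/K` has degree `d`, then `8 d u_1(L) ≤ 3 (d+1)^2`; hence
`2 u_1(L) < (d+1) u_1(K)` as soon as `d ≥ 4`. -/
theorem result (K L : Type*) [Field K] [Field L] [Algebra K L] [FiniteDimensional K L]
    (h : uInv K 1 = 1) :
    8 * (Module.finrank K L : ℕ∞) * uInv L 1 ≤ 3 * ((Module.finrank K L : ℕ∞) + 1) ^ 2 ∧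
      (4 ≤ Module.finrank K L →
        2 * uInv L 1 < ((Module.finrank K L : ℕ∞) + 1) * uInv K 1) :=
  qc_final h

end Pool.Agent.Results.MP_c32625_al.LeepCNotSharpQuadClosed
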